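import Mathlib

/-!
# Galois Lie algebras and Tate tensors of degree four
-/

namespace Pool.Agent.R914.LG

variable {F V : Type} [Field F] [AddCommGroup V] [Module F V]

/-- The commutator. -/
def br (x y : Module.End F V) : Module.End F V := x * y - y * x

/-- `𝔤` is a Lie subalgebra of `End V`. -/
def IsLie (𝔤 : Submodule F (Module.End F V)) : Prop := ∀ x ∈ 𝔤, ∀ y ∈ 𝔤, br x y ∈ 𝔤

/-- `𝔤` acts semisimply on `V` and on `End V`: every stable subspace has a stable complement. -/
def IsReductive (𝔤 : Submodule F (Module.End F V)) : Prop :=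
  (∀ U : Submodule F V, (∀ x ∈ 𝔤, ∀ u ∈ U, x u ∈ U) →
    ∃ U' : Submodule F V, (∀ x ∈ 𝔤, ∀ u ∈ U', x u ∈ U') ∧ IsCompl U U') ∧
  ∀ M : Submodule F (Module.End F V), (∀ x ∈ 𝔤, ∀ f ∈ M, br x f ∈ M) →
    ∃ M' : Submodule F (Module.End F V), (∀ x ∈ 𝔤, ∀ f ∈ M', br x f ∈ M') ∧ IsCompl M M'

/-- **The Tate tensors of degree four**: the invariants of `𝔤` in `V ⊗ V ⊗ V* ⊗ V* = End (End V)`. -/
def tate (𝔤 : Submodule F (Module.End F V)) : Set (Module.End F (Module.End F V)) :=
  {T | ∀ x ∈ 𝔤, ∀ f : Module.End F V, T (br x f) = br x (T f)}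

/-- The endomorphisms of `V` which commute with `𝔤`. -/
def commutant (𝔤 : Submodule F (Module.End F V)) : Set (Module.End F V) :=
  {a | ∀ x ∈ 𝔤, a * x = x * a}

/-- The centre of the commutant. -/
def centre (𝔤 : Submodule F (Module.End F V)) : Set (Module.End F V) :=
  {z | z ∈ commutant 𝔤 ∧ ∀ a ∈ commutant 𝔤, z * a = a * z}

/-- `𝔤` and `𝔤'` have the same image under the determinant of `V` over the centre `Z` of the commutant of
`𝔤'` (the derivative of the determinant sends `x` to the linear form `z ↦ tr (z x)` on `Z`). -/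
def SameDet (𝔤 𝔤' : Submodule F (Module.End F V)) : Prop :=
  ∀ y ∈ 𝔤', ∃ x ∈ 𝔤, ∀ z ∈ centre 𝔤', LinearMap.trace F V (z * x) = LinearMap.trace F V (z * y)

/-- **The point is `ℓ`-Galois special**: `𝔤` is the Galois Lie algebra of the point, `L Y` the one of the
generic point of `Y`, where `Y` runs over the closed irreducible subvarieties of positive dimension
through the point. -/
def IsGaloisSpecial {ι : Type} (𝔤 : Submodule F (Module.End F V))
    (L : ι → Submodule F (Module.End F V)) : Prop := ∀ Y, L Y ≠ 𝔤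

end Pool.Agent.R914.LG
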