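import Pool.Agent.R914.LG.Defs
import Pool.Agent.H914R2.Core0

/-!
# Tate tensors of degree four determine the Galois Lie algebra inside a family
-/

set_option linter.unusedSectionVars false

namespace Pool.Agent.R914.LG

variable {F V : Type} [Field F] [AddCommGroup V] [Module F V]

lemma exists_proj {E : Type} [AddCommGroup E] [Module F E] {M M' : Submodule F E}
    (hc : IsCompl M M') : ∃ P : Module.End F E, (∀ g ∈ M, P g = g) ∧ (∀ g ∈ M', P g = 0) ∧
      (∀ g, P g ∈ M) ∧ ∀ g, ∃ m ∈ M, ∃ m' ∈ M', g = m + m' := by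
  refine ⟨M.subtype ∘ₗ Submodule.projectionOnto M M' hc, fun g hg => ?_, fun g hg => ?_,
    fun g => (Submodule.projectionOnto M M' hc g).2, fun g => ?_⟩
  · have := Submodule.projectionOnto_apply_left hc ⟨g, hg⟩
    simp only [LinearMap.comp_apply, Submodule.subtype_apply]
    exact congrArg Subtype.val this
  · have := Submodule.projectionOnto_apply_right hc ⟨g, hg⟩
    simp only [LinearMap.comp_apply, Submodule.subtype_apply]
    exact congrArg Subtype.val this
  · have : g ∈ M ⊔ M' := by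
      rw [hc.sup_eq_top]
      trivial
    obtain ⟨m, hm, m', hm', h⟩ := Submodule.mem_sup.1 this
    exact ⟨m, hm, m', hm', h.symm⟩

lemma br_eq (x f : Module.End F V) : br x f = x * f - f * x := rfl

lemma br_add (x f g : Module.End F V) : br x (f + g) = br x f + br x g := by
  rw [br_eq, br_eq, br_eq, mul_add, add_mul]
  abel

lemma br_smul (x f : Module.End F V) (c : F) : br x (c • f) = c • br x f := by
  rw [br_eq, br_eq, mul_smul_comm, smul_mul_assoc, smul_sub]

lemma br_neg (x f : Module.End F V) : br x f = -br f x := by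
  rw [br_eq, br_eq, neg_sub]

lemma mem_stable {𝔤 𝔤' : Submodule F (Module.End F V)} (h𝔤 : IsReductive 𝔤)
    (hT : tate 𝔤 ⊆ tate 𝔤') {M : Submodule F (Module.End F V)}
    (hM : ∀ x ∈ 𝔤, ∀ f ∈ M, br x f ∈ M) : ∀ y ∈ 𝔤', ∀ f ∈ M, br y f ∈ M := by
  obtain ⟨M', hM', hc⟩ := h𝔤.2 M hM
  obtain ⟨P, h1, h2, h3, h4⟩ := exists_proj hc
  have hP : P ∈ tate 𝔤 := by
    intro x hx f
    obtain ⟨m, hm, m', hm', rfl⟩ := h4 f
    rw [br_add, map_add, map_add, h1 _ hm, h2 _ hm', h1 _ (hM x hx m hm), h2 _ (hM' x hx m' hm'),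
      add_zero, add_zero]
  intro y hy f hf
  have h5 := hT hP y hy f
  rw [h1 f hf] at h5
  rw [← h5]
  exact h3 _

variable [CharZero F] [FiniteDimensional F V]

lemma commutant_subset {𝔤 𝔤' : Submodule F (Module.End F V)} [Nontrivial V]
    (hT : tate 𝔤 ⊆ tate 𝔤') : commutant 𝔤 ⊆ commutant 𝔤' := by
  intro a ha y hy
  have h1 : (LinearMap.trace F V).smulRight a ∈ tate 𝔤 := by
    intro x hx f
    rw [LinearMap.smulRight_apply, LinearMap.smulRight_apply, br_smul, br_eq, br_eq, ha x hx,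
      sub_self, smul_zero, map_sub, LinearMap.trace_mul_comm, sub_self, zero_smul]
  have h2 := hT h1 y hy 1
  rw [LinearMap.smulRight_apply, LinearMap.smulRight_apply, br_smul, br_eq, br_eq, mul_one,
    one_mul, sub_self, map_zero, zero_smul, LinearMap.trace_one] at h2
  have h3 : (Module.finrank F V : F) ≠ 0 := Nat.cast_ne_zero.2 Module.finrank_pos.ne'
  have h4 := (smul_eq_zero.1 h2.symm).resolve_left h3
  exact (sub_eq_zero.1 h4).symm

lemma commutant_anti {𝔤 𝔤' : Submodule F (Module.End F V)} (h : 𝔤 ≤ 𝔤') :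
    commutant 𝔤' ⊆ commutant 𝔤 := fun _ ha x hx => ha x (h hx)

/-- A nilpotent element of the centre of the commutant vanishes. -/
lemma eq_zero_of_nilpotent {𝔤 : Submodule F (Module.End F V)} (h𝔤 : IsReductive 𝔤)
    {u : Module.End F V} (hu : u ∈ commutant 𝔤) (hc : ∀ a ∈ commutant 𝔤, u * a = a * u)
    (hn : IsNilpotent u) : u = 0 := by
  obtain ⟨U', hU', hcompl⟩ := h𝔤.1 (LinearMap.range u) (by
    rintro x hx _ ⟨v, rfl⟩
    exact ⟨x v, by rw [← Module.End.mul_apply, ← Module.End.mul_apply, hu x hx]⟩)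
  obtain ⟨p, h1, h2, h3, h4⟩ := exists_proj hcompl
  have hp : p ∈ commutant 𝔤 := by
    intro x hx
    refine LinearMap.ext fun v => ?_
    obtain ⟨m, hm, m', hm', rfl⟩ := h4 v
    have hxm : x m ∈ LinearMap.range u := by
      obtain ⟨v, rfl⟩ := hm
      exact ⟨x v, by rw [← Module.End.mul_apply, ← Module.End.mul_apply, hu x hx]⟩
    rw [Module.End.mul_apply, Module.End.mul_apply, map_add, map_add, map_add, map_add, h1 _ hm,
      h2 _ hm', h1 _ hxm, h2 _ (hU' x hx m' hm'), map_zero]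
  have hup : u * p = u := by
    rw [hc p hp]
    exact LinearMap.ext fun v => h1 _ ⟨v, rfl⟩
  have key : ∀ (k : ℕ) (v : V), ∃ v', u v = (u ^ (k + 1)) v' := by
    intro k
    induction k with
    | zero => exact fun v => ⟨v, by rw [zero_add, pow_one]⟩
    | succ k ih =>
      intro v
      obtain ⟨v', hv'⟩ := ih v
      obtain ⟨v'', hv''⟩ := h3 v'
      refine ⟨v'', ?_⟩
      have h5 : (u ^ (k + 1)) v' = (u ^ (k + 1)) (p v') := by
        rw [pow_succ, Module.End.mul_apply, Module.End.mul_apply, ← Module.End.mul_apply u p, hup]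
      rw [hv', h5, ← hv'', pow_succ u (k + 1), Module.End.mul_apply]
  obtain ⟨n, hn⟩ := hn
  refine LinearMap.ext fun v => ?_
  obtain ⟨v', hv'⟩ := key n v
  rw [hv', pow_succ, hn, zero_mul]
  rfl

lemma trace_br {z a b : Module.End F V} (h : z * a = a * z) :
    LinearMap.trace F V (z * br a b) = 0 := by
  rw [br_eq, mul_sub, map_sub, ← mul_assoc, h, mul_assoc, LinearMap.trace_mul_comm, mul_assoc,
    sub_self]

/-- **The theorem.** -/
theorem eq_of_tate {𝔤 𝔤' : Submodule F (Module.End F V)} (hlie : IsLie 𝔤) (hle : 𝔤 ≤ 𝔤') (h𝔤 : IsReductive 𝔤) (hdet : SameDet 𝔤 𝔤') (hT : tate 𝔤 ⊆ tate 𝔤') :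
    𝔤 = 𝔤' := by
  rcases subsingleton_or_nontrivial V with hV | hV
  · exact le_antisymm hle fun y _ => by
      have : y = 0 := LinearMap.ext fun v => Subsingleton.elim _ _
      rw [this]
      exact 𝔤.zero_mem
  have hcomm := commutant_subset hT
  -- `𝔤` is an ideal
  have hideal := mem_stable h𝔤 hT (M := 𝔤) hlie
  -- the derived algebra
  let D : Submodule F (Module.End F V) :=
    Submodule.span F {f | ∃ x ∈ 𝔤, ∃ y ∈ 𝔤, f = br x y}
  have hD𝔤 : D ≤ 𝔤 := Submodule.span_le.2 (by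
    rintro _ ⟨x, hx, y, hy, rfl⟩
    exact hlie x hx y hy)
  obtain ⟨D', hD', hDc⟩ := h𝔤.2 D (fun x hx f hf => Submodule.subset_span ⟨x, hx, f, hD𝔤 hf, rfl⟩)
  obtain ⟨𝔪, h𝔪, h𝔪c⟩ := h𝔤.2 𝔤 hlie
  refine le_antisymm hle fun y hy => ?_
  obtain ⟨-, -, -, -, h4⟩ := exists_proj h𝔪c
  obtain ⟨x, hx, c, hc, rfl⟩ := h4 y
  have hc' : c ∈ 𝔤' := by
    have := 𝔤'.sub_mem hy (hle hx)
    rwa [add_sub_cancel_left] at this
  have hcc : c ∈ commutant 𝔤 := by
    intro x' hx'
    have h5 : br x' c ∈ 𝔪 := h𝔪 x' hx' c hc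
    have h6 : br x' c ∈ 𝔤 := by
      rw [br_neg]
      exact 𝔤.neg_mem (hideal c hc' x' hx')
    have h7 : br x' c = 0 := by
      have := Submodule.mem_inf.2 ⟨h6, h5⟩
      rwa [h𝔪c.inf_eq_bot, Submodule.mem_bot] at this
    exact (sub_eq_zero.1 h7).symm
  have hccen : c ∈ centre 𝔤' := ⟨hcomm hcc, fun a ha => (ha c hc').symm⟩
  -- the determinant
  obtain ⟨x₁, hx₁, htr⟩ := hdet c hc'
  obtain ⟨-, -, -, -, h4'⟩ := exists_proj hDc
  obtain ⟨s, hs, t, ht, rfl⟩ := h4' x₁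
  have ht𝔤 : t ∈ 𝔤 := by
    have := 𝔤.sub_mem hx₁ (hD𝔤 hs)
    rwa [add_sub_cancel_left] at this
  have htc : t ∈ commutant 𝔤 := by
    intro x' hx'
    have h5 : br x' t ∈ D' := hD' x' hx' t ht
    have h6 : br x' t ∈ D := Submodule.subset_span ⟨x', hx', t, ht𝔤, rfl⟩
    have h7 : br x' t = 0 := by
      have := Submodule.mem_inf.2 ⟨h6, h5⟩
      rwa [hDc.inf_eq_bot, Submodule.mem_bot] at this
    exact (sub_eq_zero.1 h7).symm
  have htcen : t ∈ centre 𝔤' := ⟨hcomm htc, fun a ha => (ha t (hle ht𝔤)).symm⟩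
  have htrs : ∀ z ∈ centre 𝔤', LinearMap.trace F V (z * s) = 0 := by
    intro z hz
    refine Submodule.span_induction (p := fun s _ => LinearMap.trace F V (z * s) = 0) ?_ ?_ ?_ ?_ hs
    · rintro _ ⟨a, ha, b, hb, rfl⟩
      exact trace_br (hz.1 a (hle ha))
    · rw [mul_zero, map_zero]
    · intro a b _ _ ha hb
      rw [mul_add, map_add, ha, hb, add_zero]
    · intro r a _ ha
      rw [mul_smul_comm, map_smul, ha, smul_zero]
  set u : Module.End F V := t - c with hu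
  have hucen : ∀ n : ℕ, u ^ n ∈ centre 𝔤' := by
    intro n
    induction n with
    | zero =>
      rw [pow_zero]
      exact ⟨fun x _ => by rw [one_mul, mul_one], fun a _ => by rw [one_mul, mul_one]⟩
    | succ n ih =>
      have hu1 : ∀ x ∈ 𝔤', u * x = x * u := fun x hx => by
        rw [hu, sub_mul, mul_sub, htcen.1 x hx, hccen.1 x hx]
      have hu2 : ∀ a ∈ commutant 𝔤', u * a = a * u := fun a ha => by
        rw [hu, sub_mul, mul_sub, htcen.2 a ha, hccen.2 a ha]
      refine ⟨fun x hx => ?_, fun a ha => ?_⟩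
      · rw [pow_succ, mul_assoc, hu1 x hx, ← mul_assoc, ih.1 x hx, mul_assoc]
      · rw [pow_succ, mul_assoc, hu2 a ha, ← mul_assoc, ih.2 a ha, mul_assoc]
  have hnil : IsNilpotent u := by
    refine Pool.Agent.H914.isNilpotent_of_trace_pow u fun r => ?_
    have h5 := htr _ (hucen r)
    rw [mul_add, map_add, htrs _ (hucen r), zero_add] at h5
    rw [pow_succ]
    conv_lhs => rw [hu, mul_sub, map_sub]
    rw [← hu, h5, sub_self]
  have hu0 : u = 0 := eq_zero_of_nilpotent h𝔤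
    (fun x hx => by
      have := (hucen 1).1 x (hle hx)
      rwa [pow_one] at this)
    (fun a ha => by
      have := (hucen 1).2 a (hcomm ha)
      rwa [pow_one] at this) hnil
  rw [hu, sub_eq_zero] at hu0
  rw [← hu0]
  exact 𝔤.add_mem hx ht𝔤

lemma tate_anti {𝔤 𝔤' : Submodule F (Module.End F V)} (h : 𝔤 ≤ 𝔤') : tate 𝔤' ⊆ tate 𝔤 :=
  fun _ hT x hx => hT x (h hx)

/-- **The criterion.** -/
theorem special_iff {ι : Type} {𝔤 : Submodule F (Module.End F V)}
    {L : ι → Submodule F (Module.End F V)} (hlie : IsLie 𝔤) (h𝔤 : IsReductive 𝔤)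
    (hle : ∀ Y, 𝔤 ≤ L Y) (hdet : ∀ Y, SameDet 𝔤 (L Y)) :
    IsGaloisSpecial 𝔤 L ↔ ∀ Y, ∃ T ∈ tate 𝔤, T ∉ tate (L Y) := by
  constructor
  · intro h Y
    by_contra hn
    push Not at hn
    exact h Y (eq_of_tate hlie (hle Y) h𝔤 (hdet Y) hn).symm
  · rintro h Y rfl
    obtain ⟨T, h1, h2⟩ := h Y
    exact h2 h1

end Pool.Agent.R914.LG
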