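import Pool.Agent.R914.LG.Main

/-!
# One Tate class of codimension two decides the Mumford–Tate conjecture
-/

set_option linter.unusedSectionVars false

namespace Pool.Agent.R914.LG

variable {F V : Type} [Field F] [AddCommGroup V] [Module F V]

/-- `P` is a Tate tensor of degree four, `P ∈ End (End V)`, which is a projection of `End V` onto
`𝔤`. -/
structure IsProjector (P : Module.End F (Module.End F V)) (𝔤 : Submodule F (Module.End F V)) :
    Prop where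
  tate : P ∈ tate 𝔤
  self : ∀ x ∈ 𝔤, P x = x
  mem : ∀ f, P f ∈ 𝔤

/-- There is a Tate tensor of degree four which is a projection onto `𝔤`. -/
lemma exists_projector {𝔤 : Submodule F (Module.End F V)} (hlie : IsLie 𝔤) (h𝔤 : IsReductive 𝔤) :
    ∃ P, IsProjector P 𝔤 := by
  obtain ⟨M', hM', hc⟩ := h𝔤.2 𝔤 hlie
  obtain ⟨P, h1, h2, h3, h4⟩ := exists_proj hc
  refine ⟨P, fun x hx f => ?_, h1, h3⟩
  obtain ⟨m, hm, m', hm', rfl⟩ := h4 f
  rw [br_add, map_add, map_add, h1 _ hm, h2 _ hm', h1 _ (hlie x hx m hm), h2 _ (hM' x hx m' hm'),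
    add_zero, add_zero]

variable [CharZero F] [FiniteDimensional F V]

theorem eq_of_ideal {𝔤 𝔤' : Submodule F (Module.End F V)} (hlie : IsLie 𝔤) (hle : 𝔤 ≤ 𝔤')
    (h𝔤 : IsReductive 𝔤) (hdet : SameDet 𝔤 𝔤') (hcomm : commutant 𝔤 ⊆ commutant 𝔤')
    (hideal : ∀ y ∈ 𝔤', ∀ x ∈ 𝔤, br y x ∈ 𝔤) : 𝔤 = 𝔤' := by
  -- the derived algebra
  let D : Submodule F (Module.End F V) :=
    Submodule.span F {f | ∃ x ∈ 𝔤, ∃ y ∈ 𝔤, f = br x y}
  have hD𝔤 : D ≤ 𝔤 := Submodule.span_le.2 (by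
    rintro _ ⟨x, hx, y, hy, rfl⟩
    exact hlie x hx y hy)
  obtain ⟨D', hD', hDc⟩ := h𝔤.2 D (fun x hx f hf => Submodule.subset_span ⟨x, hx, f, hD𝔤 hf, rfl⟩)
  obtain ⟨𝔪, h𝔪, h𝔪c⟩ := h𝔤.2 𝔤 hlie
  refine le_antisymm hle fun y hy => ?_
  obtain ⟨-, -, -, -, h4⟩ := exists_proj h𝔪c
  obtain ⟨x, hx, c, hc, rfl⟩ := h4 y
  have hc' : c ∈ 𝔤' := by
    have := 𝔤'.sub_mem hy (hle hx)
    rwa [add_sub_cancel_left] at this
  have hcc : c ∈ commutant 𝔤 := by
    intro x' hx'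
    have h5 : br x' c ∈ 𝔪 := h𝔪 x' hx' c hc
    have h6 : br x' c ∈ 𝔤 := by
      rw [br_neg]
      exact 𝔤.neg_mem (hideal c hc' x' hx')
    have h7 : br x' c = 0 := by
      have := Submodule.mem_inf.2 ⟨h6, h5⟩
      rwa [h𝔪c.inf_eq_bot, Submodule.mem_bot] at this
    exact (sub_eq_zero.1 h7).symm
  have hccen : c ∈ centre 𝔤' := ⟨hcomm hcc, fun a ha => (ha c hc').symm⟩
  -- the determinant
  obtain ⟨x₁, hx₁, htr⟩ := hdet c hc'
  obtain ⟨-, -, -, -, h4'⟩ := exists_proj hDc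
  obtain ⟨s, hs, t, ht, rfl⟩ := h4' x₁
  have ht𝔤 : t ∈ 𝔤 := by
    have := 𝔤.sub_mem hx₁ (hD𝔤 hs)
    rwa [add_sub_cancel_left] at this
  have htc : t ∈ commutant 𝔤 := by
    intro x' hx'
    have h5 : br x' t ∈ D' := hD' x' hx' t ht
    have h6 : br x' t ∈ D := Submodule.subset_span ⟨x', hx', t, ht𝔤, rfl⟩
    have h7 : br x' t = 0 := by
      have := Submodule.mem_inf.2 ⟨h6, h5⟩
      rwa [hDc.inf_eq_bot, Submodule.mem_bot] at this
    exact (sub_eq_zero.1 h7).symm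
  have htcen : t ∈ centre 𝔤' := ⟨hcomm htc, fun a ha => (ha t (hle ht𝔤)).symm⟩
  have htrs : ∀ z ∈ centre 𝔤', LinearMap.trace F V (z * s) = 0 := by
    intro z hz
    refine Submodule.span_induction (p := fun s _ => LinearMap.trace F V (z * s) = 0) ?_ ?_ ?_ ?_ hs
    · rintro _ ⟨a, ha, b, hb, rfl⟩
      exact trace_br (hz.1 a (hle ha))
    · rw [mul_zero, map_zero]
    · intro a b _ _ ha hb
      rw [mul_add, map_add, ha, hb, add_zero]
    · intro r a _ ha
      rw [mul_smul_comm, map_smul, ha, smul_zero]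
  set u : Module.End F V := t - c with hu
  have hucen : ∀ n : ℕ, u ^ n ∈ centre 𝔤' := by
    intro n
    induction n with
    | zero =>
      rw [pow_zero]
      exact ⟨fun x _ => by rw [one_mul, mul_one], fun a _ => by rw [one_mul, mul_one]⟩
    | succ n ih =>
      have hu1 : ∀ x ∈ 𝔤', u * x = x * u := fun x hx => by
        rw [hu, sub_mul, mul_sub, htcen.1 x hx, hccen.1 x hx]
      have hu2 : ∀ a ∈ commutant 𝔤', u * a = a * u := fun a ha => by
        rw [hu, sub_mul, mul_sub, htcen.2 a ha, hccen.2 a ha]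
      refine ⟨fun x hx => ?_, fun a ha => ?_⟩
      · rw [pow_succ, mul_assoc, hu1 x hx, ← mul_assoc, ih.1 x hx, mul_assoc]
      · rw [pow_succ, mul_assoc, hu2 a ha, ← mul_assoc, ih.2 a ha, mul_assoc]
  have hnil : IsNilpotent u := by
    refine Pool.Agent.H914.isNilpotent_of_trace_pow u fun r => ?_
    have h5 := htr _ (hucen r)
    rw [mul_add, map_add, htrs _ (hucen r), zero_add] at h5
    rw [pow_succ]
    conv_lhs => rw [hu, mul_sub, map_sub]
    rw [← hu, h5, sub_self]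
  have hu0 : u = 0 := eq_zero_of_nilpotent h𝔤
    (fun x hx => by
      have := (hucen 1).1 x (hle hx)
      rwa [pow_one] at this)
    (fun a ha => by
      have := (hucen 1).2 a (hcomm ha)
      rwa [pow_one] at this) hnil
  rw [hu, sub_eq_zero] at hu0
  rw [← hu0]
  exact 𝔤.add_mem hx ht𝔤

/-- The criterion. -/
theorem eq_iff_projector {𝔤 𝔥 : Submodule F (Module.End F V)} (hlie : IsLie 𝔤) (hle : 𝔤 ≤ 𝔥)
    (h𝔤 : IsReductive 𝔤) (hdet : SameDet 𝔤 𝔥) (hcomm : commutant 𝔤 ⊆ commutant 𝔥)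
    {P : Module.End F (Module.End F V)} (hP : IsProjector P 𝔤) :
    𝔤 = 𝔥 ↔ ∀ y ∈ 𝔥, ∀ f : Module.End F V, P (br y f) = br y (P f) := by
  constructor
  · rintro rfl
    exact hP.tate
  · intro h
    refine eq_of_ideal hlie hle h𝔤 hdet hcomm fun y hy x hx => ?_
    have h1 := h y hy x
    rw [hP.self x hx] at h1
    rw [← h1]
    exact hP.mem _

end Pool.Agent.R914.LG
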