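import Pool.Agent.R914.LG.One

/-!
# Two Lie algebras with the same classes of degree two, and one class of degree four of each
-/

set_option linter.unusedSectionVars false

namespace Pool.Agent.R914.LG

variable {F V : Type} [Field F] [CharZero F] [AddCommGroup V] [Module F V] [FiniteDimensional F V]

/-- The elements of `𝔤` are skew for the form `ψ`. -/
def IsSkew (ψ : V →ₗ[F] V →ₗ[F] F) (𝔤 : Submodule F (Module.End F V)) : Prop :=
  ∀ x ∈ 𝔤, ∀ u v, ψ (x u) v = -ψ u (x v)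

/-- The centre of the commutant consists of self-adjoint elements. -/
def SelfAdjointCentre (ψ : V →ₗ[F] V →ₗ[F] F) (𝔤 : Submodule F (Module.End F V)) : Prop :=
  ∀ z ∈ centre 𝔤, ∀ u v, ψ (z u) v = ψ u (z v)

lemma trace_eq_zero {ψ : V →ₗ[F] V →ₗ[F] F} (hψ : Function.Injective ψ) {z y : Module.End F V}
    (hz : ∀ u v, ψ (z u) v = ψ u (z v)) (hy : ∀ u v, ψ (y u) v = -ψ u (y v)) :
    LinearMap.trace F V (z * y) = 0 := by
  have hsurj : Function.Surjective ψ :=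
    (LinearMap.injective_iff_surjective_of_finrank_eq_finrank
      (Subspace.dual_finrank_eq (K := F) (V := V)).symm).1 hψ
  let e : V ≃ₗ[F] Module.Dual F V := LinearEquiv.ofBijective ψ ⟨hψ, hsurj⟩
  have he : ∀ u v, e u v = ψ u v := fun _ _ => rfl
  let D : Module.End F (Module.Dual F V) := LinearMap.dualMap (y * z)
  have h1 : e.conj (z * y) = (-1 : F) • D := by
    refine LinearMap.ext fun φ => LinearMap.ext fun v => ?_
    obtain ⟨u, rfl⟩ := e.surjective φ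
    rw [LinearEquiv.conj_apply, LinearMap.comp_apply, LinearMap.comp_apply]
    simp only [LinearEquiv.coe_coe, LinearEquiv.symm_apply_apply]
    rw [he, Module.End.mul_apply, hz, hy, ← neg_one_mul]
    rfl
  have h3 : LinearMap.trace F (Module.Dual F V) D = LinearMap.trace F V (y * z) :=
    LinearMap.trace_transpose' (y * z)
  have h5 : LinearMap.trace F V (z * y) = -LinearMap.trace F V (z * y) := by
    calc LinearMap.trace F V (z * y) = LinearMap.trace F (Module.Dual F V) (e.conj (z * y)) :=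
          (LinearMap.trace_conj' _ _).symm
      _ = -LinearMap.trace F (Module.Dual F V) D := by
        rw [h1, map_smul, smul_eq_mul, neg_one_mul]
      _ = -LinearMap.trace F V (z * y) := by rw [h3, LinearMap.trace_mul_comm]
  have h4 : (2 : F) * LinearMap.trace F V (z * y) = 0 := by
    rw [two_mul]
    nth_rewrite 1 [h5]
    exact neg_add_cancel _
  exact (mul_eq_zero.1 h4).resolve_left two_ne_zero

lemma le_of_projector {ψ : V →ₗ[F] V →ₗ[F] F} (hψ : Function.Injective ψ)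
    {𝔤 𝔥 : Submodule F (Module.End F V)} (hlie : IsLie 𝔥) (h𝔥 : IsReductive 𝔥)
    (hs𝔤 : IsSkew ψ 𝔤) (hs𝔥 : IsSkew ψ 𝔥) (hcomm : commutant 𝔥 ⊆ commutant 𝔤)
    (hcen : SelfAdjointCentre ψ 𝔥) {Q : Module.End F (Module.End F V)} (hQ : IsProjector Q 𝔥)
    (hQ𝔤 : Q ∈ tate 𝔤) : 𝔤 ≤ 𝔥 := by
  have hc : commutant (𝔥 ⊔ 𝔤) = commutant 𝔥 := by
    refine Set.Subset.antisymm (commutant_anti le_sup_left) fun a ha x hx => ?_
    obtain ⟨x₁, hx₁, x₂, hx₂, rfl⟩ := Submodule.mem_sup.1 hx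
    rw [mul_add, add_mul, ha x₁ hx₁, hcomm ha x₂ hx₂]
  have h1 : 𝔥 = 𝔥 ⊔ 𝔤 := by
    refine eq_of_ideal hlie le_sup_left h𝔥 (fun y hy => ⟨0, 𝔥.zero_mem, fun z hz => ?_⟩) hc.ge
      fun y hy x hx => ?_
    · rw [mul_zero, map_zero]
      symm
      refine trace_eq_zero hψ (hcen z ?_) fun u v => ?_
      · exact ⟨hc ▸ hz.1, fun a ha => hz.2 a (hc.symm ▸ ha)⟩
      · obtain ⟨x₁, hx₁, x₂, hx₂, rfl⟩ := Submodule.mem_sup.1 hy
        rw [LinearMap.add_apply, LinearMap.add_apply, map_add, map_add, LinearMap.add_apply,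
          hs𝔥 x₁ hx₁, hs𝔤 x₂ hx₂]
        ring
    · obtain ⟨x₁, hx₁, x₂, hx₂, rfl⟩ := Submodule.mem_sup.1 hy
      have h2 : br (x₁ + x₂) x = br x₁ x + br x₂ x := by
        rw [br_eq, br_eq, br_eq, add_mul, mul_add]
        abel
      rw [h2]
      refine 𝔥.add_mem (hlie x₁ hx₁ x hx) ?_
      have h3 := hQ𝔤 x₂ hx₂ x
      rw [hQ.self x hx] at h3
      rw [← h3]
      exact hQ.mem _
  rw [h1]
  exact le_sup_right

/-- The criterion for the inclusion. -/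
theorem le_iff_one {ψ : V →ₗ[F] V →ₗ[F] F} (hψ : Function.Injective ψ)
    {𝔤 𝔥 : Submodule F (Module.End F V)} (hl𝔥 : IsLie 𝔥) (h𝔥 : IsReductive 𝔥)
    (hs𝔤 : IsSkew ψ 𝔤) (hs𝔥 : IsSkew ψ 𝔥) (hcen : SelfAdjointCentre ψ 𝔥)
    {Q : Module.End F (Module.End F V)} (hQ : IsProjector Q 𝔥) :
    𝔤 ≤ 𝔥 ↔ commutant 𝔥 ⊆ commutant 𝔤 ∧ Q ∈ tate 𝔤 :=
  ⟨fun h => ⟨commutant_anti h, tate_anti h hQ.tate⟩,
    fun h => le_of_projector hψ hl𝔥 h𝔥 hs𝔤 hs𝔥 h.1 hcen hQ h.2⟩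

/-- The criterion for the equality. -/
theorem eq_iff_two {ψ : V →ₗ[F] V →ₗ[F] F} (hψ : Function.Injective ψ)
    {𝔤 𝔥 : Submodule F (Module.End F V)} (hl𝔤 : IsLie 𝔤) (hl𝔥 : IsLie 𝔥) (h𝔤 : IsReductive 𝔤)
    (h𝔥 : IsReductive 𝔥) (hs𝔤 : IsSkew ψ 𝔤) (hs𝔥 : IsSkew ψ 𝔥) (hcen : SelfAdjointCentre ψ 𝔥)
    {P Q : Module.End F (Module.End F V)} (hP : IsProjector P 𝔤) (hQ : IsProjector Q 𝔥) :
    𝔤 = 𝔥 ↔ commutant 𝔤 = commutant 𝔥 ∧ Q ∈ tate 𝔤 ∧ P ∈ tate 𝔥 := by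
  constructor
  · rintro rfl
    exact ⟨rfl, hQ.tate, hP.tate⟩
  · rintro ⟨hc, h1, h2⟩
    have hcen' : SelfAdjointCentre ψ 𝔤 := fun z hz =>
      hcen z ⟨hc ▸ hz.1, fun a ha => hz.2 a (hc.symm ▸ ha)⟩
    exact le_antisymm (le_of_projector hψ hl𝔥 h𝔥 hs𝔤 hs𝔥 hc.ge hcen hQ h1)
      (le_of_projector hψ hl𝔤 h𝔤 hs𝔥 hs𝔤 hc.le hcen' hP h2)

end Pool.Agent.R914.LG
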